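import Pool.Agent.Helper89K9.MA.Stm

/-! Leaf AVG of the project MA (MP_0f1f76_lc): the average over the matrices, for a fixed stream. -/

set_option autoImplicit false

namespace Pool.Agent.Helper42K9.MA

open Finset
open Pool.Agent.TH163.AC2 (Alg lenE rightE mavg mavg_sum_mul matEquiv)
open Pool.Agent.H699R2.OMV (Prog Vec Mat IsProb before)
open Pool.Agent.Helper89K9.MA

lemma card_mat (n : ℕ) : (Fintype.card (Mat n) : ℝ) = 2 ^ (n * n) := by
  rw [← Fintype.card_congr (matEquiv (1 : (Mat n)ˣ) (fun _ => 1)), Fintype.card_fun,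
    Fintype.card_bool, Fintype.card_prod, Fintype.card_fin]
  push_cast
  rfl

open Classical in
lemma diff_ge {n w : ℕ} {Ω A : Type} (alg : Alg n Ω A w) (ω : Ω) (h : List (Vec n)) (τ : ℕ)
    (v : Vec n) : -((τ + 1 : ℝ) * ((nRight alg ω h τ v : ℝ) / 2 ^ (n * n))) ≤
      lenE alg ω h v - (τ + 1 : ℝ) * rightE alg ω h v := by
  unfold lenE rightE mavg
  rw [card_mat, ← mul_div_assoc, ← mul_div_assoc, ← sub_div, ← neg_div]
  apply div_le_div_of_nonneg_right _ (by positivity)
  have h1 : (nRight alg ω h τ v : ℝ) = ∑ M : Mat n,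
      (if alg.ans ω h M v = M.mulVec v ∧ (alg.adr ω h M v).length ≤ τ then (1 : ℝ) else 0) := by
    unfold nRight
    rw [Finset.card_filter]
    push_cast
    rfl
  rw [h1, Finset.mul_sum, Finset.mul_sum, ← Finset.sum_sub_distrib, ← Finset.sum_neg_distrib]
  apply Finset.sum_le_sum
  intro M _
  have hτ : (0 : ℝ) ≤ τ := Nat.cast_nonneg τ
  have hl : (0 : ℝ) ≤ ((alg.adr ω h M v).length : ℝ) := Nat.cast_nonneg _
  by_cases hr : alg.ans ω h M v = M.mulVec v
  · by_cases hlen : (alg.adr ω h M v).length ≤ τ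
    · rw [if_pos ⟨hr, hlen⟩, if_pos hr]
      linarith
    · rw [if_neg (fun hc => hlen hc.2), if_pos hr]
      have : (τ + 1 : ℝ) ≤ ((alg.adr ω h M v).length : ℝ) := by exact_mod_cast (by omega)
      linarith
  · rw [if_neg (fun hc => hr hc.1), if_neg hr]
    linarith

open Classical in
theorem avg_ : S_AVG := by
  intro n w Ω A _ alg μ hμ vs γ hR Q hQ τ β hall
  have hτ : (0 : ℝ) ≤ (τ + 1 : ℝ) := by positivity
  -- the time of one vector
  let T : Fin n → ℝ := fun q => mavg (fun M => ∑ ω, μ ω * ((alg.probes ω M vs q).length : ℝ))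
  have hT : ∀ q, T q = ∑ ω, μ ω * lenE alg ω (before vs q) (vs q) := by
    intro q
    show mavg _ = _
    rw [mavg_sum_mul]
    rfl
  have hE : ∀ q : Fin n, γ ≤ ∑ ω, μ ω * rightE alg ω (before vs q) (vs q) := by
    intro q
    have h1 := hR q
    rw [mavg_sum_mul] at h1
    exact h1
  have hTnn : ∀ q, 0 ≤ T q := by
    intro q
    rw [hT]
    apply Finset.sum_nonneg
    intro ω _
    apply mul_nonneg (hμ.nonneg ω)
    unfold lenE mavg
    positivity
  have hone : ∀ q : Fin n, q.val < Q → (τ + 1 : ℝ) * (γ - β) ≤ T q := by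
    intro q hq
    have h1 : ∀ ω, -((τ + 1 : ℝ) * β) ≤ lenE alg ω (before vs q) (vs q) -
        (τ + 1 : ℝ) * rightE alg ω (before vs q) (vs q) := by
      intro ω
      refine le_trans ?_ (diff_ge alg ω (before vs q) τ (vs q))
      apply neg_le_neg
      refine mul_le_mul_of_nonneg_left ?_ hτ
      rw [div_le_iff₀ (by positivity), mul_comm]
      exact hall ω q hq
    have h2 : -((τ + 1 : ℝ) * β) ≤ (∑ ω, μ ω * lenE alg ω (before vs q) (vs q)) -
        (τ + 1 : ℝ) * ∑ ω, μ ω * rightE alg ω (before vs q) (vs q) := by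
      have h4 := Finset.sum_le_sum (fun ω (_ : ω ∈ (univ : Finset Ω)) =>
        mul_le_mul_of_nonneg_left (h1 ω) (hμ.nonneg ω))
      rw [← Finset.sum_mul, hμ.sum_one, one_mul] at h4
      refine h4.trans (le_of_eq ?_)
      rw [Finset.mul_sum, ← Finset.sum_sub_distrib]
      apply Finset.sum_congr rfl
      intro ω _
      ring
    have h3 := mul_le_mul_of_nonneg_left (hE q) hτ
    rw [hT]
    linarith
  have htot : mavg (fun M => ∑ ω, μ ω * ∑ q, ((alg.probes ω M vs q).length : ℝ)) =
      ∑ q, T q := by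
    show _ = ∑ q, mavg _
    unfold mavg
    rw [← Finset.sum_div]
    congr 1
    symm
    rw [Finset.sum_comm]
    apply Finset.sum_congr rfl
    intro M _
    rw [Finset.sum_comm]
    apply Finset.sum_congr rfl
    intro ω _
    rw [Finset.mul_sum]
  rw [htot]
  have hsub : ∑ q ∈ univ.filter (fun q : Fin n => q.val < Q), T q ≤ ∑ q, T q := by
    apply Finset.sum_le_sum_of_subset_of_nonneg (Finset.filter_subset _ _)
    intro q _ _
    exact hTnn q
  refine le_trans ?_ hsub
  have hcard : (univ.filter (fun q : Fin n => q.val < Q)).card = Q := by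
    rw [Fin.card_filter_val_lt, min_eq_right hQ]
  have := Finset.card_nsmul_le_sum (univ.filter (fun q : Fin n => q.val < Q))
    (fun q => T q) ((τ + 1 : ℝ) * (γ - β)) (by
      intro q hq
      exact hone q (Finset.mem_filter.1 hq).2)
  rw [hcard, nsmul_eq_mul] at this
  exact this

end Pool.Agent.Helper42K9.MA
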