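import Pool.Agent.Helper89K9.MA.Stm
import Pool.Agent.Helper41K9.MC.Succ

/-! Leaf CORE1 of the project MA (MP_0f1f76_lc): decision trees over polynomials modulo `p` against the parities of
the rows. -/

set_option autoImplicit false

namespace Pool.Agent.Helper42K9.MA

open Finset
open H746R3.Inv (LD)
open Pool.Agent.H699R2.OMV (Prog Vec Mat)
open Pool.Agent.Helper89K9.MC (chi sgn lam S_TREE S_COR S_TAIL)
open Pool.Agent.Helper89K9.MA
open Pool.Agent.Helper41K9.MC (norm_sgn sgn_orth)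

/-- the nontrivial character of `ZMod 2` -/
noncomputable def ee (x : ZMod 2) : ℂ := if x = 0 then 1 else -1

lemma ee_add (x y : ZMod 2) : ee (x + y) = ee x * ee y := by
  unfold ee
  have h : ∀ x y : ZMod 2, (x = 0 ∧ y = 0 ∧ x + y = 0) ∨ (x = 0 ∧ y ≠ 0 ∧ x + y ≠ 0) ∨
      (x ≠ 0 ∧ y = 0 ∧ x + y ≠ 0) ∨ (x ≠ 0 ∧ y ≠ 0 ∧ x + y = 0) := by decide
  rcases h x y with ⟨h1, h2, h3⟩ | ⟨h1, h2, h3⟩ | ⟨h1, h2, h3⟩ | ⟨h1, h2, h3⟩
  · rw [if_pos h1, if_pos h2, if_pos h3, one_mul]
  · rw [if_pos h1, if_neg h2, if_neg h3, one_mul]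
  · rw [if_neg h1, if_pos h2, if_neg h3, mul_one]
  · rw [if_neg h1, if_neg h2, if_pos h3]
    norm_num

lemma ee_sum {ι : Type} (s : Finset ι) (f : ι → ZMod 2) : ee (∑ i ∈ s, f i) = ∏ i ∈ s, ee (f i) := by
  classical
  induction s using Finset.induction_on with
  | empty => simp [ee]
  | insert a s ha ih => rw [Finset.sum_insert ha, Finset.prod_insert ha, ee_add, ih]

lemma sgn_eq {n : ℕ} (S : Finset (Fin n)) (z : Vec n) : sgn S z = ∏ r ∈ S, ee (z r) := rfl

lemma sgn_add {n : ℕ} (S : Finset (Fin n)) (a b : Vec n) : sgn S (a + b) = sgn S a * sgn S b := by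
  rw [sgn_eq, sgn_eq, sgn_eq, ← Finset.prod_mul_distrib]
  exact Finset.prod_congr rfl fun r _ => ee_add _ _

lemma sgn_par {n K : ℕ} (S : Finset (Fin n)) (z : Fin n × Fin K → Bool) :
    sgn S (par z) = chi (S ×ˢ (univ : Finset (Fin K))) z := by
  rw [sgn_eq]
  unfold chi
  rw [Finset.prod_product]
  refine Finset.prod_congr rfl fun r _ => ?_
  unfold par
  rw [ee_sum]
  refine Finset.prod_congr rfl fun k _ => ?_
  unfold ee
  by_cases hz : z (r, k) = true
  · rw [if_pos hz, if_pos hz, if_neg (by decide)]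
  · rw [if_neg hz, if_neg hz, if_pos rfl]

theorem core1 : S_TREE → S_COR → S_TAIL → S_CORE1 := by
  classical
  intro hTree hCor hTail p hpf hp2 n K A W D s τ m T u hm
  set b : ℝ := 1 - 1 / lam p D with hb
  have hl1 : 1 ≤ lam p D := by
    unfold lam
    apply one_le_pow₀
    have h1 : (1 : ℝ) ≤ p := by exact_mod_cast hpf.out.one_le
    have h2 : (1 : ℝ) ≤ 2 ^ (p - 1) := one_le_pow₀ (by norm_num)
    nlinarith
  have hb0 : 0 ≤ b := by
    rw [hb, sub_nonneg, div_le_one (by linarith)]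
    exact hl1
  have hb1 : b ≤ 1 := by
    rw [hb]
    have : 0 ≤ 1 / lam p D := by positivity
    linarith
  have hXcard : (Fintype.card (Fin n × Fin K → Bool) : ℝ) = 2 ^ (n * K) := by
    have h1 : Fintype.card (Fin n × Fin K → Bool) = 2 ^ (n * K) := by
      rw [Fintype.card_fun, Fintype.card_bool, Fintype.card_prod, Fintype.card_fin, Fintype.card_fin]
    show ((Fintype.card (Fin n × Fin K → Bool) : ℕ) : ℝ) = _
    rw [h1]
    push_cast
    rfl
  -- the correlations
  set F : Finset (Fin n) → ℂ := fun S => ∑ z : Fin n × Fin K → Bool,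
    (if (T.addrs (m z)).length ≤ τ then sgn S (u + par z) * sgn S (T.out (m z)) else 0) with hF
  have hF2 : ∀ S, ‖F S‖ ≤ 2 ^ (n * K) := by
    intro S
    calc ‖F S‖ ≤ ∑ z : Fin n × Fin K → Bool, ‖(if (T.addrs (m z)).length ≤ τ then
        sgn S (u + par z) * sgn S (T.out (m z)) else 0)‖ := norm_sum_le _ _
      _ ≤ ∑ _x : Fin n × Fin K → Bool, (1 : ℝ) := by
        apply Finset.sum_le_sum
        intro x _
        split_ifs
        · rw [norm_mul, norm_sgn, norm_sgn, one_mul]
        · simp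
      _ = 2 ^ (n * K) := by
        rw [Finset.sum_const, Finset.card_univ, nsmul_eq_mul, mul_one, hXcard]
  have hF3 : ∀ S : Finset (Fin n), ¬ 4 * S.card < n →
      ‖F S‖ ≤ ((p : ℝ) ^ s) ^ τ * (2 ^ (n * K) * b ^ (n * K / 4)) := by
    intro S hS
    apply hTree p (Fin n × Fin K → Bool) A W (Vec n) (LD (ZMod p) (Fin n × Fin K) D) s m hm
      (fun o => sgn S o) (fun o => (norm_sgn _ _).le)
      (2 ^ (n * K) * b ^ (n * K / 4)) T τ (fun z => sgn S (u + par z))
    intro Q hQ
    have h1 : ∑ z : Fin n × Fin K → Bool, sgn S (u + par z) * ZMod.stdAddChar (Q z) =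
        sgn S u * ∑ z : Fin n × Fin K → Bool, chi (S ×ˢ (univ : Finset (Fin K))) z * ZMod.stdAddChar (Q z) := by
      rw [Finset.mul_sum]
      refine Finset.sum_congr rfl fun z _ => ?_
      rw [sgn_add, sgn_par, mul_assoc]
    rw [h1, norm_mul, norm_sgn, one_mul]
    refine (hCor p hp2 (Fin n × Fin K) D Q hQ (S ×ˢ univ)).trans ?_
    rw [Fintype.card_prod, Fintype.card_fin, Fintype.card_fin]
    refine mul_le_mul_of_nonneg_left ?_ (by positivity)
    refine pow_le_pow_of_le_one hb0 hb1 ?_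
    rw [Finset.card_product, Finset.card_univ, Fintype.card_fin]
    have h2 : n ≤ 4 * S.card := not_lt.mp hS
    have h3 : n * K ≤ 4 * S.card * K := Nat.mul_le_mul_right K h2
    have h4 : 4 * S.card * K = 4 * (S.card * K) := by ring
    omega
  -- the count
  set C := (univ.filter fun z : Fin n × Fin K → Bool => T.out (m z) = u + par z ∧
      (T.addrs (m z)).length ≤ τ).card with hC
  have hC1 : (C : ℂ) = ∑ z : Fin n × Fin K → Bool, (if T.out (m z) = u + par z ∧
      (T.addrs (m z)).length ≤ τ then (1 : ℂ) else 0) := by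
    rw [hC, Finset.sum_boole]
  have hsum : ∑ S, F S = 2 ^ n * (C : ℂ) := by
    simp only [hF]
    rw [Finset.sum_comm, hC1, Finset.mul_sum]
    apply Finset.sum_congr rfl
    intro x _
    by_cases hl : (T.addrs (m x)).length ≤ τ
    · simp only [if_pos hl]
      rw [sgn_orth]
      by_cases ho : T.out (m x) = u + par x
      · rw [if_pos ho.symm, if_pos ⟨ho, hl⟩, mul_one]
      · rw [if_neg (fun h => ho h.symm), if_neg (fun hc => ho hc.1), mul_zero]
    · simp only [if_neg hl]
      rw [if_neg (fun hc => hl hc.2)]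
      simp
  have hmain : (2 : ℝ) ^ n * C ≤ ∑ S, ‖F S‖ := by
    have h1 : ‖(2 : ℂ) ^ n * (C : ℂ)‖ = 2 ^ n * C := by
      rw [norm_mul, norm_pow, Complex.norm_natCast]
      norm_num
    rw [← h1, ← hsum]
    exact norm_sum_le _ _
  set R : ℝ := ((p : ℝ) ^ s) ^ τ * (2 ^ (n * K) * b ^ (n * K / 4)) with hR
  have hR0 : 0 ≤ R := by
    rw [hR]
    positivity
  have hsplit : ∑ S, ‖F S‖ ≤
      ((univ.filter fun S : Finset (Fin n) => 4 * S.card < n).card : ℝ) * 2 ^ (n * K) +
        2 ^ n * R := by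
    rw [← Finset.sum_filter_add_sum_filter_not univ (fun S : Finset (Fin n) => 4 * S.card < n)]
    apply add_le_add
    · calc _ ≤ ∑ _S ∈ univ.filter (fun S : Finset (Fin n) => 4 * S.card < n),
            (2 : ℝ) ^ (n * K) := Finset.sum_le_sum (fun S _ => hF2 S)
        _ = _ := by rw [Finset.sum_const, nsmul_eq_mul]
    · calc _ ≤ ∑ _S ∈ univ.filter (fun S : Finset (Fin n) => ¬ 4 * S.card < n), R :=
            Finset.sum_le_sum (fun S hS => hF3 S (Finset.mem_filter.mp hS).2)
        _ = ((univ.filter fun S : Finset (Fin n) => ¬ 4 * S.card < n).card : ℝ) * R := by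
            rw [Finset.sum_const, nsmul_eq_mul]
        _ ≤ 2 ^ n * R := by
            apply mul_le_mul_of_nonneg_right _ hR0
            have h1 : (univ.filter fun S : Finset (Fin n) => ¬ 4 * S.card < n).card ≤ 2 ^ n := by
              calc _ ≤ (univ : Finset (Finset (Fin n))).card := Finset.card_filter_le _ _
                _ = 2 ^ n := by
                  rw [Finset.card_univ, Fintype.card_finset, Fintype.card_fin]
            exact_mod_cast h1
  have htail : ((univ.filter fun S : Finset (Fin n) => 4 * S.card < n).card : ℝ) ≤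
      2 ^ n * (1 / 2 ^ (n / 8)) := by
    have h1 := hTail n
    have h2 : ((univ.filter fun S : Finset (Fin n) => 4 * S.card < n).card : ℝ) * 2 ^ (n / 8) ≤
        2 ^ n := by exact_mod_cast h1
    rw [mul_one_div, le_div_iff₀ (by positivity)]
    exact h2
  have hfin : (2 : ℝ) ^ n * C ≤ 2 ^ n * (2 ^ (n * K) * (1 / 2 ^ (n / 8) +
        ((p : ℝ) ^ s) ^ τ * b ^ (n * K / 4))) := by
    calc (2 : ℝ) ^ n * C ≤ _ := hmain.trans hsplit
      _ ≤ 2 ^ n * (1 / 2 ^ (n / 8)) * 2 ^ (n * K) + 2 ^ n * R := by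
          have : (0 : ℝ) ≤ 2 ^ (n * K) := by positivity
          nlinarith [mul_le_mul_of_nonneg_right htail this]
      _ = _ := by
          rw [hR]
          ring
  exact le_of_mul_le_mul_left hfin (by positivity)

end Pool.Agent.Helper42K9.MA
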